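import Mathlib
set_option autoImplicit false
open Finset

namespace Pool.Agent.Helper998.Near

namespace LoopsAux

variable {L : Type} [Fintype L] [DecidableEq L]

open MvPolynomial in
/-- main part -/
noncomputable def Q (M : L → L → ZMod 2) (c : L) : MvPolynomial (L × Bool) (ZMod 2) :=
  X (c, false) + X (c, true) + X (c, false) * X (c, true) +
    X (c, false) * (∑ d, C (M c d) * X (d, true)) + X (c, true) * (∑ d, C (M c d) * X (d, false))

open MvPolynomial in
/-- linear part -/
noncomputable def R (g1 g2 : L → ZMod 2) (c : L) : MvPolynomial (L × Bool) (ZMod 2) :=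
  C (g2 c) * X (c, false) + C (g1 c) * X (c, true)

theorem degX (i : L × Bool) : (MvPolynomial.X i : MvPolynomial (L × Bool) (ZMod 2)).totalDegree ≤ 1 := by
  rw [MvPolynomial.totalDegree_X]

theorem degCX (a : ZMod 2) (i : L × Bool) :
    (MvPolynomial.C a * MvPolynomial.X i : MvPolynomial (L × Bool) (ZMod 2)).totalDegree ≤ 1 := by
  refine (MvPolynomial.totalDegree_mul _ _).trans ?_
  rw [MvPolynomial.totalDegree_C, MvPolynomial.totalDegree_X]

theorem degS (M : L → L → ZMod 2) (c : L) (b : Bool) :
    (∑ d, MvPolynomial.C (M c d) * MvPolynomial.X (d, b) : MvPolynomial (L × Bool) (ZMod 2)).totalDegree ≤ 1 := by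
  refine MvPolynomial.totalDegree_finsetSum_le ?_
  intro d _
  exact degCX _ _

theorem degR (g1 g2 : L → ZMod 2) (c : L) : (R g1 g2 c).totalDegree ≤ 1 := by
  unfold R
  refine (MvPolynomial.totalDegree_add _ _).trans (max_le (degCX _ _) (degCX _ _))

theorem degQ (M : L → L → ZMod 2) (c : L) : (Q M c).totalDegree ≤ 2 := by
  unfold Q
  refine (MvPolynomial.totalDegree_add _ _).trans (max_le ?_ ?_)
  · refine (MvPolynomial.totalDegree_add _ _).trans (max_le ?_ ?_)
    · refine (MvPolynomial.totalDegree_add _ _).trans (max_le ?_ ?_)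
      · refine (MvPolynomial.totalDegree_add _ _).trans (max_le ?_ ?_)
        · exact (degX _).trans (by norm_num)
        · exact (degX _).trans (by norm_num)
      · exact (MvPolynomial.totalDegree_mul _ _).trans (add_le_add (degX _) (degX _))
    · exact (MvPolynomial.totalDegree_mul _ _).trans (add_le_add (degX _) (degS M c true))
  · exact (MvPolynomial.totalDegree_mul _ _).trans (add_le_add (degX _) (degS M c false))

theorem degP (M : L → L → ZMod 2) (g1 g2 : L → ZMod 2) (c : L) : (Q M c + R g1 g2 c).totalDegree ≤ 2 :=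
  (MvPolynomial.totalDegree_add _ _).trans (max_le (degQ M c) ((degR g1 g2 c).trans (by norm_num)))

theorem degPP (M : L → L → ZMod 2) (g1 g2 : L → ZMod 2) (s : Finset L) :
    (∏ c ∈ s, (Q M c + R g1 g2 c)).totalDegree ≤ 2 * s.card := by
  refine (MvPolynomial.totalDegree_finset_prod _ _).trans ?_
  refine (Finset.sum_le_sum (fun c _ => degP M g1 g2 c)).trans ?_
  simp [mul_comm]

theorem degD (M : L → L → ZMod 2) (g1 g2 : L → ZMod 2) (s : Finset L) :
    (∏ c ∈ s, (Q M c + R g1 g2 c)) - (∏ c ∈ s, Q M c) = 0 ∨
    ((∏ c ∈ s, (Q M c + R g1 g2 c)) - (∏ c ∈ s, Q M c)).totalDegree < 2 * s.card := by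
  induction s using Finset.induction_on with
  | empty => left; simp
  | insert a s ha ih =>
    right
    rw [Finset.prod_insert ha, Finset.prod_insert ha, Finset.card_insert_of_notMem ha]
    have e : (Q M a + R g1 g2 a) * (∏ c ∈ s, (Q M c + R g1 g2 c)) - Q M a * ∏ c ∈ s, Q M c =
        Q M a * ((∏ c ∈ s, (Q M c + R g1 g2 c)) - ∏ c ∈ s, Q M c) +
          R g1 g2 a * ∏ c ∈ s, (Q M c + R g1 g2 c) := by ring
    rw [e]
    refine lt_of_le_of_lt (MvPolynomial.totalDegree_add _ _) (max_lt ?_ ?_)
    · rcases ih with h | h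
      · rw [h, mul_zero, MvPolynomial.totalDegree_zero]
        omega
      · refine lt_of_le_of_lt (MvPolynomial.totalDegree_mul _ _) ?_
        have := degQ M a
        omega
    · refine lt_of_le_of_lt (MvPolynomial.totalDegree_mul _ _) ?_
      have h1 := degR g1 g2 a
      have h2 := degPP M g1 g2 s
      omega

theorem evQ (M : L → L → ZMod 2) (c : L) (v : L × Bool → ZMod 2) :
    MvPolynomial.eval v (Q M c) = v (c, false) + v (c, true) + v (c, false) * v (c, true) +
      v (c, false) * (∑ d, M c d * v (d, true)) + v (c, true) * (∑ d, M c d * v (d, false)) := by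
  unfold Q
  simp only [map_add, map_mul, map_sum, MvPolynomial.eval_X, MvPolynomial.eval_C]

theorem evR (g1 g2 : L → ZMod 2) (c : L) (v : L × Bool → ZMod 2) :
    MvPolynomial.eval v (R g1 g2 c) = g2 c * v (c, false) + g1 c * v (c, true) := by
  unfold R
  simp only [map_add, map_mul, MvPolynomial.eval_X, MvPolynomial.eval_C]

/-- swap -/
def sw (v : L × Bool → ZMod 2) : L × Bool → ZMod 2 := fun p => v (p.1, !p.2)

theorem evQ_sw (M : L → L → ZMod 2) (c : L) (v : L × Bool → ZMod 2) :
    MvPolynomial.eval (sw v) (Q M c) = MvPolynomial.eval v (Q M c) := by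
  rw [evQ, evQ]
  simp only [sw, Bool.not_false, Bool.not_true]
  ring

theorem sumQ (M : L → L → ZMod 2) :
    ∑ v : L × Bool → ZMod 2, MvPolynomial.eval v (∏ c, Q M c) = 1 := by
  rw [← Finset.sum_erase_add _ _ (Finset.mem_univ (fun _ => (1 : ZMod 2)))]
  have h1 : MvPolynomial.eval (fun _ => (1 : ZMod 2)) (∏ c, Q M c) = 1 := by
    rw [map_prod]
    apply Finset.prod_eq_one
    intro c _
    rw [evQ]
    simp only [mul_one, one_mul]
    generalize ∑ d, M c d = t
    revert t
    decide
  have h2 : ∑ v ∈ (univ : Finset (L × Bool → ZMod 2)).erase (fun _ => 1),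
      MvPolynomial.eval v (∏ c, Q M c) = 0 := by
    refine Finset.sum_involution (fun v _ => sw v) ?_ ?_ ?_ ?_
    · intro v _
      have : MvPolynomial.eval (sw v) (∏ c, Q M c) = MvPolynomial.eval v (∏ c, Q M c) := by
        rw [map_prod, map_prod]
        exact Finset.prod_congr rfl fun c _ => evQ_sw M c v
      rw [this]
      exact CharTwo.add_self_eq_zero _
    · intro v hv hne hsw
      apply Finset.ne_of_mem_erase hv
      have hx : ∀ c, v (c, false) = v (c, true) := by
        intro c
        have := congrFun hsw (c, true)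
        simpa [sw] using this
      rw [map_prod, Finset.prod_ne_zero_iff] at hne
      have hone : ∀ c, v (c, true) = 1 := by
        intro c
        have h3 := hne c (Finset.mem_univ c)
        rw [evQ] at h3
        simp only [hx] at h3
        generalize (∑ d, M c d * v (d, true)) = t at h3
        generalize v (c, true) = x at h3
        revert t x
        decide
      funext p
      obtain ⟨c, b⟩ := p
      cases b
      · rw [hx, hone]
      · exact hone c
    · intro v hv
      apply Finset.mem_erase_of_ne_of_mem _ (Finset.mem_univ _)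
      intro h
      apply Finset.ne_of_mem_erase hv
      funext p
      have := congrFun h (p.1, !p.2)
      simpa [sw] using this
    · intro v _
      funext p
      simp [sw]
  rw [h1, h2, zero_add]

end LoopsAux

open LoopsAux in
theorem loops {L : Type} [Fintype L] [DecidableEq L] (M : L → L → ZMod 2) (g1 g2 : L → ZMod 2) :
    ∃ x y : L → ZMod 2, (∀ c, x c ≠ 0 ∨ y c ≠ 0) ∧
      ∀ c, x c * (g2 c + ∑ d, M c d * y d) + y c * (g1 c + ∑ d, M c d * x d) = 0 := by
  rcases isEmpty_or_nonempty L with hL | hL
  · exact ⟨fun _ => 0, fun _ => 0, fun c => (hL.false c).elim, fun c => (hL.false c).elim⟩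
  have hcard : 0 < Fintype.card L := Fintype.card_pos
  have hdeg : ((∏ c, (Q M c + R g1 g2 c)) - (∏ c, Q M c)).totalDegree <
      (Fintype.card (ZMod 2) - 1) * Fintype.card (L × Bool) := by
    have h1 : (Fintype.card (ZMod 2) - 1) * Fintype.card (L × Bool) = 2 * Fintype.card L := by
      rw [ZMod.card, Fintype.card_prod, Fintype.card_bool]
      omega
    rw [h1]
    rcases degD M g1 g2 univ with h | h
    · rw [h, MvPolynomial.totalDegree_zero]
      omega
    · exact h
  have hz := MvPolynomial.sum_eval_eq_zero _ hdeg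
  simp only [map_sub, Finset.sum_sub_distrib] at hz
  rw [sumQ, sub_eq_zero] at hz
  obtain ⟨v, hv⟩ : ∃ v : L × Bool → ZMod 2, MvPolynomial.eval v (∏ c, (Q M c + R g1 g2 c)) ≠ 0 := by
    by_contra hcon
    push Not at hcon
    rw [Finset.sum_eq_zero (fun v _ => hcon v)] at hz
    exact absurd hz (by decide)
  rw [map_prod, Finset.prod_ne_zero_iff] at hv
  refine ⟨fun c => v (c, false), fun c => v (c, true), ?_, ?_⟩
  · intro c
    have h3 := hv c (Finset.mem_univ c)
    rw [map_add, evQ, evR] at h3
    simp only
    generalize (∑ d, M c d * v (d, true)) = t at h3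
    generalize (∑ d, M c d * v (d, false)) = t' at h3
    generalize v (c, true) = y at h3 ⊢
    generalize v (c, false) = x at h3 ⊢
    generalize g1 c = a at h3
    generalize g2 c = b at h3
    revert t t' x y a b
    decide
  · intro c
    have h3 := hv c (Finset.mem_univ c)
    rw [map_add, evQ, evR] at h3
    simp only
    generalize (∑ d, M c d * v (d, true)) = t at h3 ⊢
    generalize (∑ d, M c d * v (d, false)) = t' at h3 ⊢
    generalize v (c, true) = y at h3 ⊢
    generalize v (c, false) = x at h3 ⊢
    generalize g1 c = a at h3 ⊢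
    generalize g2 c = b at h3 ⊢
    revert t t' x y a b
    decide

end Pool.Agent.Helper998.Near
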