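import Pool.Agent.Helper998.Near.Flow
import Pool.Agent.Helper998.Near.Loops

set_option autoImplicit false

open Finset

namespace Pool.Agent.Helper998.Near

open Pool.Agent.Helper347.Sab
open Pool.Agent.Results.MP_0c3aa4_co.ThroughDominating

variable {V E : Type} [Fintype V] [DecidableEq V] [Fintype E] [DecidableEq E]

/-- boundary -/
def bnd (G : MGraph V E) (f : E → ZMod 2) (x : V) : ZMod 2 :=
  ∑ e, if x ∈ G.ends e then f e else 0

theorem bnd_add (G : MGraph V E) (f g : E → ZMod 2) (x : V) :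
    bnd G (fun e => f e + g e) x = bnd G f x + bnd G g x := by
  unfold bnd
  rw [← sum_add_distrib]
  refine sum_congr rfl fun e _ => ?_
  split_ifs <;> simp

theorem bnd_sum {ι : Type} [Fintype ι] (G : MGraph V E) (k : ι → ZMod 2) (z : ι → E → ZMod 2)
    (x : V) : bnd G (fun e => ∑ c, k c * z c e) x = ∑ c, k c * bnd G (z c) x := by
  unfold bnd
  simp only [mul_sum]
  rw [sum_comm]
  refine sum_congr rfl fun e _ => ?_
  split_ifs <;> simp

theorem bnd_ind (G : MGraph V E) (A : Finset E) (x : V) :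
    bnd G (fun e => if e ∈ A then 1 else 0) x = ((dg G A x : ℕ) : ZMod 2) := by
  unfold bnd dg
  rw [card_filter, Nat.cast_sum, ← sum_subset (subset_univ A)]
  · refine sum_congr rfl fun e he => ?_
    by_cases h : x ∈ G.ends e <;> simp [h, he]
  · intro e _ he
    simp [he]

theorem bnd_total (G : MGraph V E) (f : E → ZMod 2) : ∑ x, bnd G f x = 0 := by
  unfold bnd
  exact half_edges G univ f

theorem ev_of_bnd (G : MGraph V E) (f : E → ZMod 2) (h : ∀ x, bnd G f x = 0) :
    Ev G (univ.filter fun e => f e = 1) := by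
  intro x
  rw [even_iff_cast, ← bnd_ind]
  refine Eq.trans ?_ (h x)
  unfold bnd
  refine sum_congr rfl fun e _ => ?_
  rcases z2_cases (f e) with h' | h' <;> simp [h']

theorem bnd_zero (G : MGraph V E) (f : E → ZMod 2) (x : V) (h : ∀ e, x ∈ G.ends e → f e = 0) :
    bnd G f x = 0 := by
  unfold bnd
  refine sum_eq_zero fun e _ => ?_
  split_ifs with h1
  · exact h e h1
  · rfl

theorem at_vertex (G : MGraph V E) (hG : IsCubic G) (C : Finset E) (v : V) (hv : dg G C v = 2)
    (c : E) (hc : c ∉ C) (hvc : v ∈ G.ends c) (e1 : E) (he1 : e1 ∈ C) (hv1 : v ∈ G.ends e1) :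
    ∃ e2 ∈ C, v ∈ G.ends e2 ∧ ∀ f : E → ZMod 2, bnd G f v = f c + f e1 + f e2 := by
  have h1 : e1 ∈ C.filter fun e => v ∈ G.ends e := mem_filter.2 ⟨he1, hv1⟩
  have h2 : ((C.filter fun e => v ∈ G.ends e).erase e1).card = 1 := by
    rw [card_erase_of_mem h1]
    unfold dg at hv
    omega
  obtain ⟨e2, he2⟩ := card_eq_one.1 h2
  have h3 : e2 ∈ (C.filter fun e => v ∈ G.ends e).erase e1 := by rw [he2]; simp
  rw [mem_erase, mem_filter] at h3
  refine ⟨e2, h3.2.1, h3.2.2, fun f => ?_⟩
  have h4 : (univ.filter fun e => v ∈ G.ends e) = {c, e1, e2} := by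
    symm
    apply eq_of_subset_of_card_le
    · intro e he
      simp only [mem_insert, mem_singleton] at he
      rw [mem_filter]
      refine ⟨mem_univ _, ?_⟩
      rcases he with rfl | rfl | rfl
      · exact hvc
      · exact hv1
      · exact h3.2.2
    · have h5 := hG v
      unfold dg at h5
      rw [h5]
      have h6 : c ≠ e1 := fun h => hc (h ▸ he1)
      have h7 : c ≠ e2 := fun h => hc (h ▸ h3.2.1)
      rw [card_insert_of_notMem (by simp [h6, h7]), card_pair (Ne.symm h3.1)]
  unfold bnd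
  rw [← sum_filter, h4]
  have h6 : c ≠ e1 := fun h => hc (h ▸ he1)
  have h7 : c ≠ e2 := fun h => hc (h ▸ h3.2.1)
  rw [sum_insert (by simp [h6, h7]), sum_pair (Ne.symm h3.1)]
  ring

theorem arith : ∀ x y a1 a2 b1 b2 : ZMod 2, (x ≠ 0 ∨ y ≠ 0) → x + a1 + a2 = 0 →
    y + b1 + b2 = 0 → 0 + (1 + a1) * (1 + b1) + (1 + a2) * (1 + b2) = 1 + (x * b1 + y * a1) := by
  decide

theorem arith2 : ∀ x y a1 b1 a2 b2 : ZMod 2, x * (b1 + b2) + y * (a1 + a2) = 0 →
    1 + (x * b1 + y * a1) = 1 + (x * b2 + y * a2) := by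
  decide

theorem sums {ι : Type} [Fintype ι] (a b : ZMod 2) (i y p q : ι → ZMod 2) :
    (a + ∑ d, i d * p d) + (b + ∑ d, i d * q d) + ∑ d, (p d + q d) * y d =
      (a + ∑ d, (y d + i d) * p d) + (b + ∑ d, (y d + i d) * q d) := by
  have h1 : ∑ d, (p d + q d) * y d = ∑ d, y d * p d + ∑ d, y d * q d := by
    rw [← sum_add_distrib]
    refine sum_congr rfl fun d _ => ?_
    ring
  have h2 : ∑ d, (y d + i d) * p d = ∑ d, y d * p d + ∑ d, i d * p d := by
    rw [← sum_add_distrib]
    refine sum_congr rfl fun d _ => ?_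
    ring
  have h3 : ∑ d, (y d + i d) * q d = ∑ d, y d * q d + ∑ d, i d * q d := by
    rw [← sum_add_distrib]
    refine sum_congr rfl fun d _ => ?_
    ring
  rw [h1, h2, h3]
  ring

/-- a 4-flow of G/E(C), all edges outside C that are not chords of C connected -/
theorem one_bridge (G : MGraph V E) (hG : IsCubic G) (C A B : Finset E) (hC : IsCircuit G C)
    (hA : Ev G A) (hB : Ev G B) (hcov : ∀ e, e ∉ C → e ∈ A ∨ e ∈ B) (F : Finset E)
    (hF : ∀ e, e ∈ F ↔ e ∉ C ∧ ∃ v ∈ G.ends e, dg G C v = 0)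
    (hFc : ∀ a b, 0 < dg G F a → 0 < dg G F b → Rch G F a b) :
    ∃ F' : Finset (Finset E), IsCycleDoubleCover G F' ∧
      ∀ D, IsCircuit G D → D ⊆ C → D ∈ F' := by
  classical
  let L := {e : E // e ∉ C ∧ ∀ v ∈ G.ends e, dg G C v = 2}
  have h0 : ∀ c : L, ∃ u w, G.ends c.1 = s(u, w) := by
    intro c
    obtain ⟨u, w, _, h⟩ := exists_ends G c.1
    exact ⟨u, w, h⟩
  choose u w huw using h0
  have hu2 : ∀ c, dg G C (u c) = 2 := fun c => c.2.2 _ (by rw [huw]; simp)
  have hw2 : ∀ c, dg G C (w c) = 2 := fun c => c.2.2 _ (by rw [huw]; simp)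
  have hEu : ∀ c, ∃ e ∈ C, u c ∈ G.ends e := fun c =>
    exists_mem_of_dg_pos (by rw [hu2]; norm_num)
  have hEw : ∀ c, ∃ e ∈ C, w c ∈ G.ends e := fun c =>
    exists_mem_of_dg_pos (by rw [hw2]; norm_num)
  choose eu heuC heu using hEu
  choose ew hewC hew using hEw
  have hJ0 : ∀ c : L, ∃ J : E → ZMod 2, (∀ e, e ∉ C → J e = 0) ∧
      ∀ x, ∑ e, (if x ∈ G.ends e then J e else 0) =
        (if x = u c then 1 else 0) + (if x = w c then 1 else 0) := fun c =>
    path_join G C (u c) (w c) (circ_reach G C hC _ _ (hu2 c) (hw2 c))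
  choose J0 hJ1 hJ2 using hJ0
  let z : L → E → ZMod 2 := fun c e => J0 c e + if e = c.1 then 1 else 0
  have hzb : ∀ c x, bnd G (z c) x = 0 := by
    intro c x
    have hne : u c ≠ w c := by
      intro h
      have := G.loopless c.1
      rw [huw, h] at this
      exact this (by simp)
    show bnd G (fun e => J0 c e + if e = c.1 then 1 else 0) x = 0
    rw [bnd_add]
    have h1 : bnd G (J0 c) x = (if x = u c then 1 else 0) + (if x = w c then 1 else 0) := hJ2 c x
    have h2 : bnd G (fun e => if e = c.1 then (1 : ZMod 2) else 0) x =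
        if x = u c ∨ x = w c then 1 else 0 := by
      unfold bnd
      have h3 : ∀ e, (if x ∈ G.ends e then (if e = c.1 then (1 : ZMod 2) else 0) else 0) =
          if e = c.1 then (if x ∈ G.ends c.1 then 1 else 0) else 0 := by
        intro e
        by_cases h : e = c.1
        · rw [h]; simp
        · simp [h]
      simp only [h3]
      rw [sum_ite_eq' univ c.1, if_pos (mem_univ _), huw]
      simp only [Sym2.mem_iff]
    rw [h1, h2]
    by_cases h4 : x = u c
    · have h5 : x ≠ w c := fun h => hne (h4.symm.trans h)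
      simp only [h4, true_or, if_true]
      rw [if_neg hne]
      decide
    · by_cases h5 : x = w c
      · have h6 : ¬ w c = u c := fun h => hne h.symm
        simp only [h5, or_true, if_true]
        rw [if_neg h6]
        decide
      · simp [h4, h5]
  have hzoff : ∀ c e, e ∉ C → z c e = if e = c.1 then 1 else 0 := by
    intro c e he
    show J0 c e + _ = _
    rw [hJ1 c e he, zero_add]
  let iA : E → ZMod 2 := fun e => if e ∈ A then 1 else 0
  let iB : E → ZMod 2 := fun e => if e ∈ B then 1 else 0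
  let G1 : E → ZMod 2 := fun e => iA e + ∑ d : L, iA d.1 * z d e
  let G2 : E → ZMod 2 := fun e => iB e + ∑ d : L, iB d.1 * z d e
  obtain ⟨x, y, hxy, hsol⟩ := loops (L := L) (fun c d => z d (eu c) + z d (ew c))
    (fun c => G1 (eu c) + G1 (ew c)) (fun c => G2 (eu c) + G2 (ew c))
  let α : E → ZMod 2 := fun e => iA e + ∑ d : L, (x d + iA d.1) * z d e
  let β : E → ZMod 2 := fun e => iB e + ∑ d : L, (y d + iB d.1) * z d e
  have hα0 : ∀ v, bnd G α v = 0 := by
    intro v
    show bnd G (fun e => iA e + ∑ d : L, (x d + iA d.1) * z d e) v = 0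
    rw [bnd_add, bnd_sum, bnd_ind, (even_iff_cast _).1 (hA v)]
    simp [hzb]
  have hβ0 : ∀ v, bnd G β v = 0 := by
    intro v
    show bnd G (fun e => iB e + ∑ d : L, (y d + iB d.1) * z d e) v = 0
    rw [bnd_add, bnd_sum, bnd_ind, (even_iff_cast _).1 (hB v)]
    simp [hzb]
  have h22 : ∀ a b : ZMod 2, a + (b + a) = b := by decide
  have hαc : ∀ c : L, α c.1 = x c := by
    intro c
    show iA c.1 + ∑ d : L, (x d + iA d.1) * z d c.1 = x c
    have h1 : ∀ d : L, (x d + iA d.1) * z d c.1 = if c = d then x d + iA d.1 else 0 := by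
      intro d
      rw [hzoff d c.1 c.2.1]
      by_cases h : c = d
      · subst h; simp
      · have : c.1 ≠ d.1 := fun h' => h (Subtype.ext h')
        simp [h, this]
    simp only [h1]
    rw [sum_ite_eq univ c, if_pos (mem_univ _)]
    exact h22 _ _
  have hβc : ∀ c : L, β c.1 = y c := by
    intro c
    show iB c.1 + ∑ d : L, (y d + iB d.1) * z d c.1 = y c
    have h1 : ∀ d : L, (y d + iB d.1) * z d c.1 = if c = d then y d + iB d.1 else 0 := by
      intro d
      rw [hzoff d c.1 c.2.1]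
      by_cases h : c = d
      · subst h; simp
      · have : c.1 ≠ d.1 := fun h' => h (Subtype.ext h')
        simp [h, this]
    simp only [h1]
    rw [sum_ite_eq univ c, if_pos (mem_univ _)]
    exact h22 _ _
  have hzF : ∀ e ∈ F, ∀ d : L, z d e = 0 := by
    intro e he d
    have h1 := (hF e).1 he
    rw [hzoff d e h1.1, if_neg]
    rintro rfl
    obtain ⟨v, hv1, hv2⟩ := h1.2
    have := d.2.2 v hv1
    omega
  have hαF : ∀ e ∈ F, α e = iA e := by
    intro e he
    show iA e + ∑ d : L, (x d + iA d.1) * z d e = iA e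
    rw [sum_eq_zero fun d _ => by rw [hzF e he d, mul_zero], add_zero]
  have hβF : ∀ e ∈ F, β e = iB e := by
    intro e he
    show iB e + ∑ d : L, (y d + iB d.1) * z d e = iB e
    rw [sum_eq_zero fun d _ => by rw [hzF e he d, mul_zero], add_zero]
  have hcase : ∀ e, e ∉ C → e ∈ F ∨ ∃ c : L, c.1 = e := by
    intro e he
    by_cases h : ∃ v ∈ G.ends e, dg G C v = 0
    · exact Or.inl ((hF e).2 ⟨he, h⟩)
    · right
      push Not at h
      exact ⟨⟨e, he, fun v hv => (hC.2.1 v).resolve_left (h v hv)⟩, rfl⟩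
  have hsol' : ∀ c : L, x c * (β (eu c) + β (ew c)) + y c * (α (eu c) + α (ew c)) = 0 := by
    intro c
    have h1 := hsol c
    have h2 : G2 (eu c) + G2 (ew c) + ∑ d : L, (z d (eu c) + z d (ew c)) * y d =
        β (eu c) + β (ew c) := by
      show (iB (eu c) + ∑ d : L, iB d.1 * z d (eu c)) + (iB (ew c) + ∑ d : L, iB d.1 * z d (ew c)) +
        ∑ d : L, (z d (eu c) + z d (ew c)) * y d =
        (iB (eu c) + ∑ d : L, (y d + iB d.1) * z d (eu c)) +
        (iB (ew c) + ∑ d : L, (y d + iB d.1) * z d (ew c))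
      exact sums _ _ (fun d : L => iB d.1) y (fun d => z d (eu c)) (fun d => z d (ew c))
    have h3 : G1 (eu c) + G1 (ew c) + ∑ d : L, (z d (eu c) + z d (ew c)) * x d =
        α (eu c) + α (ew c) := by
      show (iA (eu c) + ∑ d : L, iA d.1 * z d (eu c)) + (iA (ew c) + ∑ d : L, iA d.1 * z d (ew c)) +
        ∑ d : L, (z d (eu c) + z d (ew c)) * x d =
        (iA (eu c) + ∑ d : L, (x d + iA d.1) * z d (eu c)) +
        (iA (ew c) + ∑ d : L, (x d + iA d.1) * z d (ew c))
      exact sums _ _ (fun d : L => iA d.1) x (fun d => z d (eu c)) (fun d => z d (ew c))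
    rw [h2, h3] at h1
    exact h1
  let ν : E → ZMod 2 := fun e => if e ∈ C then (1 + α e) * (1 + β e) else 0
  have hν : ∀ (c : L) (v : V) (e1 : E), v ∈ G.ends c.1 → e1 ∈ C → v ∈ G.ends e1 →
      bnd G ν v = 1 + (x c * β e1 + y c * α e1) := by
    intro c v e1 hv he1 hv1
    obtain ⟨e2, he2, hv2, hb⟩ := at_vertex G hG C v (c.2.2 v hv) c.1 c.2.1 hv e1 he1 hv1
    have h1 := hb α
    have h2 := hb β
    rw [hα0, hαc] at h1
    rw [hβ0, hβc] at h2
    rw [hb ν]
    have h3 : ν c.1 = 0 := if_neg c.2.1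
    have h4 : ν e1 = (1 + α e1) * (1 + β e1) := if_pos he1
    have h5 : ν e2 = (1 + α e2) * (1 + β e2) := if_pos he2
    rw [h3, h4, h5]
    exact arith _ _ _ _ _ _ (hxy c) h1.symm h2.symm
  have htuw : ∀ c : L, bnd G ν (u c) = bnd G ν (w c) := by
    intro c
    rw [hν c (u c) (eu c) (by rw [huw]; simp) (heuC c) (heu c),
      hν c (w c) (ew c) (by rw [huw]; simp) (hewC c) (hew c)]
    exact arith2 _ _ _ _ _ _ (hsol' c)
  have hνoff : ∀ v, dg G C v = 0 → bnd G ν v = 0 := by
    intro v hv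
    apply bnd_zero
    intro e he
    by_cases h : e ∈ C
    · have := dg_pos_of_mem (G := G) h he
      omega
    · exact if_neg h
  let δ : E → ZMod 2 := fun e => ∑ c : L, if e = c.1 then bnd G ν (u c) else 0
  have hδc : ∀ c : L, δ c.1 = bnd G ν (u c) := by
    intro c
    show (∑ d : L, if c.1 = d.1 then bnd G ν (u d) else 0) = _
    have h1 : ∀ d : L, (if c.1 = d.1 then bnd G ν (u d) else 0) =
        if c = d then bnd G ν (u d) else 0 := by
      intro d
      by_cases h : c = d
      · subst h; simp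
      · have : c.1 ≠ d.1 := fun h' => h (Subtype.ext h')
        simp [h, this]
    simp only [h1]
    rw [sum_ite_eq univ c, if_pos (mem_univ _)]
  have hδ0 : ∀ e, (¬ ∃ c : L, c.1 = e) → δ e = 0 := by
    intro e he
    refine sum_eq_zero fun c _ => ?_
    rw [if_neg]
    intro h
    exact he ⟨c, h.symm⟩
  let t : V → ZMod 2 := fun v => bnd G ν v + bnd G δ v
  have ht : ∀ v, t v ≠ 0 → 0 < dg G F v := by
    intro v hv
    by_contra hcon
    have hF0 : dg G F v = 0 := by omega
    apply hv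
    show bnd G ν v + bnd G δ v = 0
    rcases hC.2.1 v with h | h
    · rw [hνoff v h, zero_add]
      apply bnd_zero
      intro e he
      apply hδ0
      rintro ⟨c, hc⟩
      have := c.2.2 v (by rw [hc]; exact he)
      omega
    · -- the third edge at v is a chord
      have h1 := dg_split G univ C v
      rw [univ_inter, hG v, h] at h1
      obtain ⟨e, he, hve⟩ := exists_mem_of_dg_pos (G := G) (X := univ \ C) (v := v) (by omega)
      rw [mem_sdiff] at he
      rcases hcase e he.2 with h2 | ⟨c, hc⟩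
      · have := dg_pos_of_mem (G := G) h2 hve
        omega
      · obtain ⟨e1, he1, hv1⟩ := exists_mem_of_dg_pos (G := G) (X := C) (v := v) (by omega)
        have hvc : v ∈ G.ends c.1 := by rw [hc]; exact hve
        obtain ⟨e2, he2, hv2, hb⟩ := at_vertex G hG C v h c.1 c.2.1 hvc e1 he1 hv1
        rw [hb δ, hδc c, hδ0 e1 (by rintro ⟨d, hd⟩; exact d.2.1 (hd ▸ he1)),
          hδ0 e2 (by rintro ⟨d, hd⟩; exact d.2.1 (hd ▸ he2)), add_zero, add_zero]
        have h3 : bnd G ν v = bnd G ν (u c) := by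
          rw [huw, Sym2.mem_iff] at hvc
          rcases hvc with h4 | h4
          · rw [h4]
          · rw [h4]; exact (htuw c).symm
        rw [h3]
        exact CharTwo.add_self_eq_zero _
  obtain ⟨p0, hp0⟩ : ∃ p0 : V, ∀ v, t v ≠ 0 → Rch G F v p0 := by
    by_cases h : ∃ p, 0 < dg G F p
    · obtain ⟨p, hp⟩ := h
      exact ⟨p, fun v hv => hFc v p (ht v hv) hp⟩
    · obtain ⟨e0, he0⟩ := hC.1
      obtain ⟨a, b, _, _⟩ := exists_ends G e0
      exact ⟨a, fun v hv => absurd ⟨v, ht v hv⟩ h⟩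
  obtain ⟨J, hJF, hJ⟩ := join G F t (fun _ => p0) hp0
  have hJ' : ∀ v, ((dg G J v : ℕ) : ZMod 2) = t v := by
    intro v
    rw [hJ v]
    have h1 : ∑ v, t v = 0 := by
      show ∑ v, (bnd G ν v + bnd G δ v) = 0
      rw [sum_add_distrib, bnd_total, bnd_total, add_zero]
    by_cases hx : v = p0
    · simp [hx, h1]
    · simp [hx]
  let dd : E → ZMod 2 := fun e => (ν e + δ e) + if e ∈ J then 1 else 0
  have hdd : ∀ v, bnd G dd v = 0 := by
    intro v
    show bnd G (fun e => (ν e + δ e) + if e ∈ J then 1 else 0) v = 0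
    rw [bnd_add, bnd_add, bnd_ind, hJ' v]
    exact CharTwo.add_self_eq_zero _
  refine core G hG C _ _ _ hC.2.1 (ev_of_bnd G α hα0) (ev_of_bnd G β hβ0) (ev_of_bnd G dd hdd)
    ?_ ?_
  · intro e he
    rw [mem_filter, mem_filter]
    rcases hcase e he with h | ⟨c, hc⟩
    · rw [hαF e h, hβF e h]
      rcases hcov e he with h1 | h1
      · left; exact ⟨mem_univ _, if_pos h1⟩
      · right; exact ⟨mem_univ _, if_pos h1⟩
    · rw [← hc, hαc, hβc]
      rcases hxy c with h1 | h1
      · left; exact ⟨mem_univ _, (z2_cases _).resolve_left h1⟩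
      · right; exact ⟨mem_univ _, (z2_cases _).resolve_left h1⟩
  · intro e he
    rw [mem_filter, mem_filter, mem_filter]
    have h1 : dd e = (1 + α e) * (1 + β e) := by
      show (ν e + δ e) + (if e ∈ J then 1 else 0) = _
      have h2 : ν e = (1 + α e) * (1 + β e) := if_pos he
      rw [h2, hδ0 e (by rintro ⟨d, hd⟩; exact d.2.1 (hd ▸ he)), if_neg, add_zero, add_zero]
      intro h3
      exact ((hF e).1 (hJF h3)).1 he
    rw [h1]
    simp only [mem_univ, true_and]
    generalize α e = a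
    generalize β e = b
    revert a b
    decide

end Pool.Agent.Helper998.Near
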