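import Pool.Agent.Results.MP_0c3aa4_co.ThroughDominating

set_option autoImplicit false

open Finset

namespace Pool.Agent.Helper998.Near

open Pool.Agent.Helper347.Sab
open Pool.Agent.Results.MP_0c3aa4_co.ThroughDominating

variable {V E : Type} [Fintype V] [DecidableEq V] [Fintype E] [DecidableEq E]

abbrev Rch (G : MGraph V E) (F : Finset E) : V → V → Prop :=
  Relation.ReflTransGen (fun x y => ∃ e ∈ F, G.ends e = s(x, y))

theorem path_join (G : MGraph V E) (F : Finset E) (a b : V) (h : Rch G F a b) :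
    ∃ J : E → ZMod 2, (∀ e, e ∉ F → J e = 0) ∧
      ∀ x, ∑ e, (if x ∈ G.ends e then J e else 0) =
        (if x = a then 1 else 0) + (if x = b then 1 else 0) := by
  have h2 : ∀ z : ZMod 2, z + z = 0 := by decide
  induction h with
  | refl =>
    refine ⟨fun _ => 0, fun _ _ => rfl, fun x => ?_⟩
    simp [h2]
  | tail hab h1 ih =>
    rename_i b c
    obtain ⟨J, hJ1, hJ2⟩ := ih
    obtain ⟨f, hf, hends⟩ := h1
    have hbc : b ≠ c := by
      intro h
      have := G.loopless f
      rw [hends, h] at this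
      exact this (by simp)
    refine ⟨fun e => J e + (if e = f then 1 else 0), fun e he => ?_, fun x => ?_⟩
    · have : e ≠ f := fun h => he (h ▸ hf)
      simp only [hJ1 e he, this, if_false, add_zero]
    · have h3 : ∀ e, (if x ∈ G.ends e then J e + (if e = f then (1 : ZMod 2) else 0) else 0) =
          (if x ∈ G.ends e then J e else 0) + (if e = f then (if x ∈ G.ends f then 1 else 0) else 0) := by
        intro e
        by_cases h4 : e = f
        · subst h4
          by_cases h5 : x ∈ G.ends e <;> simp [h5]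
        · simp [h4]
      simp only [h3]
      rw [sum_add_distrib, hJ2 x, sum_ite_eq' univ f, if_pos (mem_univ _), hends]
      simp only [Sym2.mem_iff]
      by_cases h6 : x = b
      · have h7 : x ≠ c := fun h => hbc (h6.symm.trans h)
        simp only [h6, true_or, if_true]
        rw [if_neg hbc, add_assoc, h2 1]
      · by_cases h7 : x = c
        · subst h7
          simp [h6]
        · simp [h6, h7]

theorem join (G : MGraph V E) (F : Finset E) (t : V → ZMod 2) (p : V → V)
    (hp : ∀ v, t v ≠ 0 → Rch G F v (p v)) :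
    ∃ J ⊆ F, ∀ x, ((dg G J x : ℕ) : ZMod 2) = t x + ∑ v, if x = p v then t v else 0 := by
  have h0 : ∀ v, ∃ J : E → ZMod 2, (∀ e, e ∉ F → J e = 0) ∧
      ∀ x, ∑ e, (if x ∈ G.ends e then J e else 0) =
        (if x = v then t v else 0) + (if x = p v then t v else 0) := by
    intro v
    by_cases hv : t v = 0
    · refine ⟨fun _ => 0, fun _ _ => rfl, fun x => ?_⟩
      simp [hv]
    · have hv1 : t v = 1 := by
        rcases z2_cases (t v) with h | h
        · exact absurd h hv
        · exact h
      rw [hv1]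
      exact path_join G F v (p v) (hp v hv)
  choose j hj1 hj2 using h0
  refine ⟨F.filter fun e => ∑ v, j v e = 1, filter_subset _ _, fun x => ?_⟩
  have h1 : ((dg G (F.filter fun e => ∑ v, j v e = 1) x : ℕ) : ZMod 2) =
      ∑ e, (if x ∈ G.ends e then ∑ v, j v e else 0) := by
    unfold dg
    rw [filter_filter, card_filter, Nat.cast_sum]
    rw [← sum_subset (subset_univ F)]
    · refine sum_congr rfl fun e _ => ?_
      by_cases hx : x ∈ G.ends e
      · simp only [hx, and_true, if_true]
        rcases z2_cases (∑ v, j v e) with h | h <;> simp [h]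
      · simp [hx]
    · intro e _ he
      have : ∑ v, j v e = 0 := sum_eq_zero fun v _ => hj1 v e he
      rw [this]; simp
  rw [h1]
  have h3 : ∑ e, (if x ∈ G.ends e then ∑ v, j v e else 0) =
      ∑ v, ∑ e, (if x ∈ G.ends e then j v e else 0) := by
    rw [sum_comm]
    refine sum_congr rfl fun e _ => ?_
    by_cases hx : x ∈ G.ends e <;> simp [hx]
  rw [h3]
  simp only [hj2]
  rw [sum_add_distrib, sum_ite_eq univ x, if_pos (mem_univ _)]

/-- a circuit inside the 2-regular set S belongs to every decomposition of S -/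
theorem mem_decomp (G : MGraph V E) (S : Finset E) (hS : TwoRegular G S)
    (N : Multiset (Finset E)) (hN1 : ∀ X ∈ N, IsCircuit G X)
    (hN2 : ∀ e, N.countP (e ∈ ·) = if e ∈ S then 1 else 0)
    (D : Finset E) (hD : IsCircuit G D) (hDS : D ⊆ S) : D ∈ N := by
  obtain ⟨e, he⟩ := hD.1
  have h4 := hN2 e
  rw [if_pos (hDS he)] at h4
  obtain ⟨X, hX, heX⟩ := Multiset.countP_pos.1 (by rw [h4]; norm_num : 0 < N.countP (e ∈ ·))
  have hXS : X ⊆ S := by
    intro f hf
    by_contra hcon
    have h5 := hN2 f
    rw [if_neg hcon] at h5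
    exact absurd (Multiset.countP_pos.2 ⟨X, hX, hf⟩) (by rw [h5]; norm_num)
  have hcl : ∀ (A B : Finset E), IsCircuit G A → IsCircuit G B → A ⊆ S → B ⊆ S → e ∈ A →
      e ∈ B → A ⊆ B := by
    intro A B hA hB hAS hBS heA heB f hf
    have := hA.2.2 e heA f hf
    induction this with
    | refl => exact heB
    | tail h6 h7 ih =>
      rename_i a b
      have haA : a ∈ A := by
        rcases Relation.ReflTransGen.cases_tail h6 with h | ⟨c, _, h⟩
        · rw [h]; exact heA
        · exact h.1
      have haB := ih haA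
      obtain ⟨v, hva, hvb⟩ := h7.2
      have hBv : dg G B v = 2 :=
        (hB.2.1 v).resolve_left (by have := dg_pos_of_mem (G := G) haB hva; omega)
      have hSv : dg G S v = 2 := by
        have h8 := dg_mono (G := G) hBS v
        rcases hS v with h | h
        · omega
        · exact h
      have heq : (B.filter fun e => v ∈ G.ends e) = S.filter fun e => v ∈ G.ends e := by
        apply eq_of_subset_of_card_le (filter_subset_filter _ hBS)
        unfold dg at hBv hSv
        omega
      have : b ∈ S.filter fun e => v ∈ G.ends e := mem_filter.2 ⟨hAS h7.1, hvb⟩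
      rw [← heq, mem_filter] at this
      exact this.1
  have : D = X := Subset.antisymm (hcl D X hD (hN1 X hX) hDS hXS he heX)
    (hcl X D (hN1 X hX) hD hXS hDS heX he)
  rw [this]
  exact hX

/-- A, B a 4-flow of G whose zeros lie in S, D an even set meeting S exactly in the zeros -/
theorem core (G : MGraph V E) (hG : IsCubic G) (S A B D : Finset E) (hS : TwoRegular G S)
    (hA : Ev G A) (hB : Ev G B) (hD : Ev G D) (hcov : ∀ e, e ∉ S → e ∈ A ∨ e ∈ B)
    (hDS : ∀ e ∈ S, (e ∈ D ↔ e ∉ A ∧ e ∉ B)) :
    ∃ F : Finset (Finset E), IsCycleDoubleCover G F ∧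
      ∀ C, IsCircuit G C → C ⊆ S → C ∈ F := by
  have hSe : Ev G S := by
    intro v; rcases hS v with h | h <;> rw [h] <;> decide
  have hdeg : ∀ X : Finset E, Ev G X → ∀ v, dg G X v = 0 ∨ dg G X v = 2 := by
    intro X hX v
    have a1 := hX v
    have a2 := dg_mono (G := G) (subset_univ X) v
    have a3 := hG v
    rw [Nat.even_iff] at a1
    omega
  have hSD := ev_symmDiff hSe hD
  have hAB := ev_symmDiff hA hB
  obtain ⟨N0, a0, b0⟩ := decompose G _ S le_rfl hS
  obtain ⟨N1, a1, b1⟩ := decompose G _ D le_rfl (hdeg _ hD)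
  obtain ⟨N2, a2, b2⟩ := decompose G _ _ le_rfl (hdeg _ (ev_symmDiff hSD hA))
  obtain ⟨N3, a3, b3⟩ := decompose G _ _ le_rfl (hdeg _ (ev_symmDiff hSD hB))
  obtain ⟨N4, a4, b4⟩ := decompose G _ _ le_rfl (hdeg _ (ev_symmDiff hSD hAB))
  have h1 : ∀ X ∈ N0 + (N1 + (N2 + (N3 + N4))), IsCircuit G X := by
    intro X hX
    simp only [Multiset.mem_add] at hX
    rcases hX with h | h | h | h | h
    · exact a0 X h
    · exact a1 X h
    · exact a2 X h
    · exact a3 X h
    · exact a4 X h
  have h2 : ∀ e, (N0 + (N1 + (N2 + (N3 + N4)))).countP (e ∈ ·) = 2 := by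
    intro e
    rw [Multiset.countP_add, Multiset.countP_add, Multiset.countP_add, Multiset.countP_add,
      b0, b1, b2, b3, b4]
    have c1 := hcov e
    have c2 := hDS e
    simp only [mem_symmDiff]
    by_cases d1 : e ∈ S <;> by_cases d2 : e ∈ A <;> by_cases d3 : e ∈ B <;> by_cases d4 : e ∈ D <;>
      simp_all
  have hnd := nodup_cover G hG _ h1 h2
  refine ⟨⟨_, hnd⟩, ⟨fun X hX => h1 X hX, fun e => ?_⟩, fun C hC hCS => ?_⟩
  · have := h2 e
    rw [Multiset.countP_eq_card_filter] at this
    exact this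
  · show C ∈ N0 + (N1 + (N2 + (N3 + N4)))
    rw [Multiset.mem_add]
    exact Or.inl (mem_decomp G S hS N0 a0 b0 C hC hCS)

theorem even_iff_cast (n : ℕ) : Even n ↔ ((n : ℕ) : ZMod 2) = 0 := by
  rw [even_iff_two_dvd]
  exact (ZMod.natCast_eq_zero_iff n 2).symm

theorem dg_split (G : MGraph V E) (X Y : Finset E) (v : V) :
    dg G (X ∩ Y) v + dg G (X \ Y) v = dg G X v := by
  have h := dg_sdiff (G := G) (X := X) (Y := X ∩ Y) inter_subset_left v
  have h2 : X \ (X ∩ Y) = X \ Y := by
    ext e; simp only [mem_sdiff, mem_inter]; tauto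
  rw [h2] at h
  omega

/-- vertices of a circuit are joined inside it -/
theorem circ_reach (G : MGraph V E) (A : Finset E) (hA : IsCircuit G A) (p q : V)
    (hp : dg G A p = 2) (hq : dg G A q = 2) : Rch G A p q := by
  have edge : ∀ e ∈ A, ∀ v ∈ G.ends e, ∀ w ∈ G.ends e, Rch G A v w := by
    intro e he v hv w hw
    by_cases hvw : v = w
    · rw [hvw]
    · exact Relation.ReflTransGen.single ⟨e, he, (Sym2.mem_and_mem_iff hvw).1 ⟨hv, hw⟩⟩
  obtain ⟨e, he, hpe⟩ := exists_mem_of_dg_pos (G := G) (X := A) (v := p) (by omega)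
  obtain ⟨f, hf, hqf⟩ := exists_mem_of_dg_pos (G := G) (X := A) (v := q) (by omega)
  have key : ∀ f', Relation.ReflTransGen (fun a b => b ∈ A ∧ Touch G a b) e f' →
      f' ∈ A ∧ ∀ v ∈ G.ends f', Rch G A p v := by
    intro f' h
    induction h with
    | refl => exact ⟨he, fun v hv => edge e he p hpe v hv⟩
    | tail _ h2 ih =>
      obtain ⟨h3, h4⟩ := ih
      obtain ⟨h5, w, hw1, hw2⟩ := h2
      exact ⟨h5, fun v hv => (h4 w hw1).trans (edge _ h5 w hw2 v hv)⟩
  exact (key f (hA.2.2 e he f hf)).2 q hqf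

/-- the main criterion -/
theorem criterion (G : MGraph V E) (hG : IsCubic G) (S A D : Finset E) (hS : TwoRegular G S)
    (hA : IsCircuit G A) (hD : Ev G D) (hspan : ∀ v, dg G A v = 0 → dg G S v = 2)
    (hDA : ∀ e ∈ D, e ∈ S → e ∉ A)
    (hDu : ∀ v, dg G A v = 0 → ∀ e, v ∈ G.ends e → e ∉ S → e ∈ D) :
    ∃ F : Finset (Finset E), IsCycleDoubleCover G F ∧
      ∀ C, IsCircuit G C → C ⊆ S → C ∈ F := by
  have hAe : Ev G A := by
    intro v; rcases hA.2.1 v with h | h <;> rw [h] <;> decide
  obtain ⟨N, hN⟩ : ∃ N, N = D ∩ S := ⟨_, rfl⟩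
  obtain ⟨M, hM⟩ : ∃ M, M = (univ : Finset E) \ (A ∪ N) := ⟨_, rfl⟩
  have hNA : ∀ e ∈ N, e ∉ A := by
    intro e he
    rw [hN, mem_inter] at he
    exact hDA e he.1 he.2
  -- N covers every vertex off A exactly once
  have hN1 : ∀ v, dg G A v = 0 → dg G N v = 1 := by
    intro v hv
    have h1 := dg_split G D S v
    have h2 := dg_split G univ S v
    rw [univ_inter, hG v, hspan v hv] at h2
    have h3 : dg G (D \ S) v = dg G (univ \ S) v := by
      apply le_antisymm
      · exact dg_mono (sdiff_subset_sdiff (subset_univ _) le_rfl) v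
      · unfold dg
        apply card_le_card
        intro e he
        rw [mem_filter, mem_sdiff] at he ⊢
        exact ⟨⟨hDu v hv e he.2 he.1.2, he.1.2⟩, he.2⟩
    have h4 := hD v
    have h5 := dg_mono (G := G) (X := D ∩ S) (Y := S) inter_subset_right v
    rw [hspan v hv] at h5
    rw [hN]
    rw [Nat.even_iff] at h4
    omega
  have hMd : ∀ v, dg G M v + dg G A v + dg G N v = 3 := by
    intro v
    have h1 := dg_sdiff (G := G) (X := univ) (Y := A ∪ N) (subset_univ _) v
    rw [hG v] at h1
    have h2 := dg_sdiff (G := G) (X := A ∪ N) (Y := A) subset_union_left v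
    have h3 : (A ∪ N) \ A = N := by
      ext e
      simp only [mem_sdiff, mem_union]
      constructor
      · rintro ⟨h | h, h'⟩
        · exact absurd h h'
        · exact h
      · intro h
        exact ⟨Or.inr h, hNA e h⟩
    rw [h3] at h2
    rw [hM]
    omega
  obtain ⟨e0, he0⟩ := hA.1
  obtain ⟨p0, p1, hp01, hends0⟩ := exists_ends G e0
  have hp0 : dg G A p0 = 2 := (hA.2.1 p0).resolve_left (by
    have := dg_pos_of_mem (G := G) he0 (show p0 ∈ G.ends e0 by rw [hends0]; simp); omega)
  obtain ⟨J, hJA, hJ⟩ := join G A (fun v => ((dg G M v : ℕ) : ZMod 2)) (fun _ => p0) (by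
    intro v hv
    apply circ_reach G A hA v p0 _ hp0
    rcases hA.2.1 v with h | h
    · exfalso
      apply hv
      have h1 := hMd v
      have h2 := hN1 v h
      have h3 : dg G M v = 2 := by omega
      show ((dg G M v : ℕ) : ZMod 2) = 0
      rw [h3]; rfl
    · exact h)
  have hJ' : ∀ x, ((dg G J x : ℕ) : ZMod 2) = ((dg G M x : ℕ) : ZMod 2) := by
    intro x
    rw [hJ x]
    have h1 : ∑ v, ((dg G M v : ℕ) : ZMod 2) = 0 := by
      rw [← Nat.cast_sum]
      exact (even_iff_cast _).1 (handshake G M)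
    by_cases hx : x = p0
    · simp [hx, h1]
    · simp [hx]
  have hJM : Disjoint J M := by
    rw [disjoint_left]
    intro e he h
    rw [hM, mem_sdiff] at h
    exact h.2 (mem_union_left _ (hJA he))
  have hB : Ev G (M ∪ J) := by
    intro v
    have h1 := dg_sdiff (G := G) (X := M ∪ J) (Y := M) subset_union_left v
    have h3 : (M ∪ J) \ M = J := by
      rw [union_sdiff_left]
      exact sdiff_eq_self_of_disjoint hJM
    rw [h3] at h1
    rw [even_iff_cast, ← h1, Nat.cast_add, hJ' v]
    exact CharTwo.add_self_eq_zero _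
  refine core G hG S A (M ∪ J) D hS hAe hB hD ?_ ?_
  · intro e he
    by_cases h : e ∈ A
    · exact Or.inl h
    · right
      rw [mem_union, hM, mem_sdiff, mem_union, hN, mem_inter]
      left
      exact ⟨mem_univ _, by tauto⟩
  · intro e he
    constructor
    · intro h
      have h1 : e ∈ N := by rw [hN, mem_inter]; exact ⟨h, he⟩
      refine ⟨hNA e h1, ?_⟩
      rw [mem_union, hM, mem_sdiff]
      rintro (h2 | h2)
      · exact h2.2 (mem_union_right _ h1)
      · exact hNA e h1 (hJA h2)
    · rintro ⟨h1, h2⟩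
      by_contra h3
      apply h2
      rw [mem_union, hM, mem_sdiff, mem_union, hN, mem_inter]
      left
      exact ⟨mem_univ _, by tauto⟩

/-- S ∪ A connected and spanning, G - E(S) connected -/
theorem spanning (G : MGraph V E) (hG : IsCubic G) (S A : Finset E) (hS : TwoRegular G S)
    (hA : IsCircuit G A) (hSA : Connected G (S ∪ A)) (hGS : Connected G (univ \ S)) :
    ∃ F : Finset (Finset E), IsCycleDoubleCover G F ∧
      ∀ C, IsCircuit G C → C ⊆ S → C ∈ F := by
  classical
  obtain ⟨e0, he0⟩ := hA.1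
  obtain ⟨p0, p1, hp01, hends0⟩ := exists_ends G e0
  have hp0 : dg G A p0 = 2 := (hA.2.1 p0).resolve_left (by
    have := dg_pos_of_mem (G := G) he0 (show p0 ∈ G.ends e0 by rw [hends0]; simp); omega)
  have hon : ∀ e ∈ A, ∀ v ∈ G.ends e, dg G A v = 2 := by
    intro e he v hv
    exact (hA.2.1 v).resolve_left (by have := dg_pos_of_mem (G := G) he hv; omega)
  have hP : ∀ u, ∃ p, dg G A p = 2 ∧ Rch G (S \ A) u p := by
    intro u
    have h := hSA u p0
    induction h using Relation.ReflTransGen.head_induction_on with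
    | refl => exact ⟨p0, hp0, Relation.ReflTransGen.refl⟩
    | head h1 _ ih =>
      rename_i a c _
      obtain ⟨e, he, hends⟩ := h1
      by_cases heA : e ∈ A
      · exact ⟨a, hon e heA a (by rw [hends]; simp), Relation.ReflTransGen.refl⟩
      · obtain ⟨p, hp1, hp2⟩ := ih
        refine ⟨p, hp1, Relation.ReflTransGen.head ⟨e, ?_, hends⟩ hp2⟩
        rw [mem_sdiff]
        exact ⟨(mem_union.1 he).resolve_right heA, heA⟩
  choose p hp1 hp2 using hP
  have hspan : ∀ v, dg G A v = 0 → dg G S v = 2 := by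
    intro v hv
    rcases Relation.ReflTransGen.cases_head (hp2 v) with h | ⟨c, ⟨e, he, hends⟩, _⟩
    · have := hp1 v
      rw [← h] at this
      omega
    · rw [mem_sdiff] at he
      exact (hS v).resolve_left (by
        have := dg_pos_of_mem (G := G) he.1 (show v ∈ G.ends e by rw [hends]; simp); omega)
  obtain ⟨N, hNS, hN⟩ := join G (S \ A) (fun v => if dg G A v = 0 then 1 else 0) p
    (fun v _ => hp2 v)
  have hNoff : ∀ v, dg G A v = 0 → ((dg G N v : ℕ) : ZMod 2) = 1 := by
    intro v hv
    rw [hN v]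
    have : ∑ w, (if v = p w then (if dg G A w = 0 then (1 : ZMod 2) else 0) else 0) = 0 := by
      refine sum_eq_zero fun w _ => ?_
      rw [if_neg]
      intro h
      have := hp1 w
      rw [← h] at this
      omega
    rw [this]
    simp [hv]
  obtain ⟨J, hJS, hJ⟩ := join G (univ \ S) (fun v => ((dg G N v : ℕ) : ZMod 2)) (fun _ => p0)
    (fun v _ => hGS v p0)
  have hJ' : ∀ x, ((dg G J x : ℕ) : ZMod 2) = ((dg G N x : ℕ) : ZMod 2) := by
    intro x
    rw [hJ x]
    have h1 : ∑ v, ((dg G N v : ℕ) : ZMod 2) = 0 := by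
      rw [← Nat.cast_sum]
      exact (even_iff_cast _).1 (handshake G N)
    by_cases hx : x = p0
    · simp [hx, h1]
    · simp [hx]
  have hdis : Disjoint J N := by
    rw [disjoint_left]
    intro e he h
    exact (mem_sdiff.1 (hJS he)).2 (mem_sdiff.1 (hNS h)).1
  have hD : Ev G (N ∪ J) := by
    intro v
    have h1 := dg_sdiff (G := G) (X := N ∪ J) (Y := N) subset_union_left v
    have h3 : (N ∪ J) \ N = J := by
      rw [union_sdiff_left]
      exact sdiff_eq_self_of_disjoint hdis
    rw [h3] at h1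
    rw [even_iff_cast, ← h1, Nat.cast_add, hJ' v]
    exact CharTwo.add_self_eq_zero _
  refine criterion G hG S A (N ∪ J) hS hA hD hspan ?_ ?_
  · intro e he heS
    rcases mem_union.1 he with h | h
    · exact (mem_sdiff.1 (hNS h)).2
    · exact absurd heS (mem_sdiff.1 (hJS h)).2
  · intro v hv e hve heS
    apply mem_union_right
    by_contra hcon
    -- e is the only edge at v outside S
    have h2 := dg_split G univ S v
    rw [univ_inter, hG v, hspan v hv] at h2
    have h3 : dg G J v = 0 := by
      have h4 : dg G J v < dg G (univ \ S) v := by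
        unfold dg
        apply card_lt_card
        rw [Finset.ssubset_iff_subset_ne]
        refine ⟨filter_subset_filter _ hJS, fun h => ?_⟩
        have : e ∈ (univ \ S).filter fun e => v ∈ G.ends e := by
          rw [mem_filter, mem_sdiff]; exact ⟨⟨mem_univ _, heS⟩, hve⟩
        rw [← h, mem_filter] at this
        exact hcon this.1
      omega
    have h5 := hJ' v
    rw [h3, hNoff v hv] at h5
    exact absurd h5 (by decide)

end Pool.Agent.Helper998.Near
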