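import Pool.Agent.Helper998.Near.Core

set_option autoImplicit false

open Finset

namespace Pool.Agent.Helper998.Near

open Pool.Agent.Helper347.Sab
open Pool.Agent.Results.MP_0c3aa4_co.ThroughDominating

variable {V E : Type} [Fintype V] [DecidableEq V] [Fintype E] [DecidableEq E]

/-- T-join for the odd vertices of M in a connected spanning edge set F disjoint from M -/
theorem complete (G : MGraph V E) (F M : Finset E) (hF : Connected G F) (hFM : Disjoint F M) :
    ∃ J ⊆ F, Ev G (M ∪ J) := by
  by_cases hV : Nonempty V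
  · obtain ⟨p0⟩ := hV
    obtain ⟨J, hJF, hJ⟩ := join G F (fun v => ((dg G M v : ℕ) : ZMod 2)) (fun _ => p0)
      (fun v _ => hF v p0)
    refine ⟨J, hJF, fun v => ?_⟩
    have hJ' : ∀ x, ((dg G J x : ℕ) : ZMod 2) = ((dg G M x : ℕ) : ZMod 2) := by
      intro x
      rw [hJ x]
      have h1 : ∑ v, ((dg G M v : ℕ) : ZMod 2) = 0 := by
        rw [← Nat.cast_sum]
        exact (even_iff_cast _).1 (handshake G M)
      by_cases hx : x = p0
      · simp [hx, h1]
      · simp [hx]
    have h1 := dg_sdiff (G := G) (X := M ∪ J) (Y := M) subset_union_left v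
    have h3 : (M ∪ J) \ M = J := by
      rw [union_sdiff_left]
      exact sdiff_eq_self_of_disjoint (disjoint_of_subset_left hJF hFM)
    rw [h3] at h1
    rw [even_iff_cast, ← h1, Nat.cast_add, hJ' v]
    exact CharTwo.add_self_eq_zero _
  · exact ⟨∅, empty_subset _, fun v => absurd ⟨v⟩ hV⟩

/-- G/E(S) has a nowhere-zero 4-flow and G - E(S) is connected -/
theorem flow_case (G : MGraph V E) (hG : IsCubic G) (S A B : Finset E) (hS : TwoRegular G S)
    (hA : Ev G A) (hB : Ev G B) (hcov : ∀ e, e ∉ S → e ∈ A ∨ e ∈ B)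
    (hGS : Connected G (univ \ S)) :
    ∃ F : Finset (Finset E), IsCycleDoubleCover G F ∧
      ∀ C, IsCircuit G C → C ⊆ S → C ∈ F := by
  obtain ⟨J, hJ1, hJ2⟩ := complete G (univ \ S) (S \ (A ∪ B)) hGS (by
    rw [disjoint_left]
    intro e he h
    exact (mem_sdiff.1 he).2 (mem_sdiff.1 h).1)
  refine core G hG S A B _ hS hA hB hJ2 hcov ?_
  intro e he
  rw [mem_union, mem_sdiff, mem_union]
  constructor
  · rintro (h | h)
    · tauto
    · exact absurd he (mem_sdiff.1 (hJ1 h)).2
  · intro h
    left
    exact ⟨he, by tauto⟩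

/-- G/E(S) has a spanning closed trail -/
theorem trail_flow (G : MGraph V E) (S A : Finset E) (hA : Ev G A)
    (hSA : Connected G (S ∪ A)) :
    ∃ B, Ev G B ∧ ∀ e, e ∉ S → e ∈ A ∨ e ∈ B := by
  obtain ⟨J, hJ1, hJ2⟩ := complete G (S ∪ A) (univ \ (S ∪ A)) hSA disjoint_sdiff
  refine ⟨_, hJ2, fun e he => ?_⟩
  by_cases h : e ∈ A
  · exact Or.inl h
  · right
    rw [mem_union, mem_sdiff, mem_union]
    left
    exact ⟨mem_univ _, by tauto⟩

theorem ev_circuit (G : MGraph V E) (A : Finset E) (hA : IsCircuit G A) : Ev G A := by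
  intro v; rcases hA.2.1 v with h | h <;> rw [h] <;> decide

theorem one_off (G : MGraph V E) (A : Finset E) (hA : IsCircuit G A)
    (hlen : Fintype.card V ≤ A.card + 1) (x y : V) (hx : dg G A x = 0) (hy : dg G A y = 0) :
    x = y := by
  have hc : (univ.filter fun v => dg G A v = 2).card = A.card := by
    have hsum : ∑ v, dg G A v = 2 * A.card := by
      unfold dg
      simp only [card_filter]
      rw [sum_comm]
      have : ∀ e ∈ A, ∑ v : V, (if v ∈ G.ends e then 1 else 0) = 2 := by
        intro e _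
        rw [← card_filter, card_ends]
      rw [sum_congr rfl this, sum_const, smul_eq_mul, mul_comm]
    have h1 : ∑ v, dg G A v = ∑ v, (if dg G A v = 2 then 2 else 0) := by
      refine sum_congr rfl fun v _ => ?_
      rcases hA.2.1 v with h | h <;> rw [h] <;> simp
    rw [h1, ← sum_filter, sum_const, smul_eq_mul] at hsum
    omega
  by_contra hne
  have h1 := card_filter_add_card_filter_not (s := (univ : Finset V)) (fun v => dg G A v = 2)
  rw [card_univ] at h1
  have h2 : ({x, y} : Finset V).card ≤ (univ.filter fun v => ¬ dg G A v = 2).card := by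
    apply card_le_card
    intro w hw
    rw [mem_insert, mem_singleton] at hw
    rw [mem_filter]
    refine ⟨mem_univ _, ?_⟩
    rcases hw with rfl | rfl <;> omega
  rw [card_pair hne] at h2
  omega

theorem rch_mono (G : MGraph V E) (F F' : Finset E) (h : F ⊆ F') (a b : V) (hab : Rch G F a b) :
    Rch G F' a b := by
  induction hab with
  | refl => exact Relation.ReflTransGen.refl
  | tail _ h1 ih =>
    obtain ⟨e, he, h2⟩ := h1
    exact ih.tail ⟨e, h he, h2⟩

theorem rch_symm (G : MGraph V E) (F : Finset E) (a b : V) (hab : Rch G F a b) : Rch G F b a := by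
  induction hab with
  | refl => exact Relation.ReflTransGen.refl
  | tail _ h1 ih =>
    obtain ⟨e, he, h2⟩ := h1
    exact Relation.ReflTransGen.head ⟨e, he, by rw [h2, Sym2.eq_swap]⟩ ih

/-- if at most one vertex is off the circuit A and it lies on S then S ∪ A is connected -/
theorem union_connected (G : MGraph V E) (S A : Finset E) (hA : IsCircuit G A)
    (hone : ∀ x y, dg G A x = 0 → dg G A y = 0 → x = y)
    (hoff : ∀ x, dg G A x = 0 → dg G S x = 2) : Connected G (S ∪ A) := by
  have hto : ∀ x, ∃ y, dg G A y = 2 ∧ Rch G (S ∪ A) x y := by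
    intro x
    rcases hA.2.1 x with hx | hx
    · obtain ⟨e, he, hxe⟩ := exists_mem_of_dg_pos (G := G) (X := S) (v := x) (by
        rw [hoff x hx]; norm_num)
      obtain ⟨a, b, hab, hends⟩ := exists_ends G e
      obtain ⟨y, hy, hends'⟩ : ∃ y, y ≠ x ∧ G.ends e = s(x, y) := by
        rw [hends, Sym2.mem_iff] at hxe
        rcases hxe with h | h
        · exact ⟨b, by rw [h]; exact hab.symm, by rw [hends, h]⟩
        · exact ⟨a, by rw [h]; exact hab, by rw [hends, h, Sym2.eq_swap]⟩
      exact ⟨y, (hA.2.1 y).resolve_left fun h => hy (hone y x h hx),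
        Relation.ReflTransGen.single ⟨e, mem_union_left _ he, hends'⟩⟩
    · exact ⟨x, hx, Relation.ReflTransGen.refl⟩
  intro a b
  obtain ⟨a', ha', h1⟩ := hto a
  obtain ⟨b', hb', h2⟩ := hto b
  exact (h1.trans (rch_mono G A _ subset_union_right _ _ (circ_reach G A hA a' b' ha' hb'))).trans
    (rch_symm G _ _ _ h2)

/-- near-Hamiltonian graphs, G - E(S) connected -/
theorem near_case (G : MGraph V E) (hG : IsCubic G) (hconn : TwoEdgeConnected G) (S A : Finset E)
    (hS : TwoRegular G S) (hA : IsCircuit G A) (hlen : Fintype.card V ≤ A.card + 1)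
    (hGS : Connected G (univ \ S)) :
    ∃ F : Finset (Finset E), IsCycleDoubleCover G F ∧
      ∀ C, IsCircuit G C → C ⊆ S → C ∈ F := by
  by_cases h : ∀ x, dg G A x = 0 → dg G S x = 2
  · obtain ⟨B, hB1, hB2⟩ := trail_flow G S A (ev_circuit G A hA)
      (union_connected G S A hA (one_off G A hA hlen) h)
    exact flow_case G hG S A B hS (ev_circuit G A hA) hB1 hB2 hGS
  · push Not at h
    obtain ⟨x, hx, hSx⟩ := h
    refine Pool.Agent.Results.MP_0c3aa4_co.ThroughDominating.result G hG hconn S hS
      ⟨A, hA, ?_, Or.inr (by omega)⟩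
    intro v hv
    rcases hA.2.1 v with h0 | h0
    · have := one_off G A hA hlen x v hx h0
      subst this
      exact absurd hv hSx
    · exact h0

end Pool.Agent.Helper998.Near
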