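import Pool.Agent.Results.MP_0c3aa4_co.ThroughDominating

set_option autoImplicit false

open Finset

namespace Pool.Agent.Results.MP_ff63d6_co.InsideDominating

open Pool.Agent.Helper347.Sab

/-!
Strong circuit double covers of cubic graphs of circumference at least n - 1, for every circuit C
whose vertices lie on a dominating circuit or on a circuit missing at most two vertices.
-/

variable {V E : Type} [Fintype V] [DecidableEq V] [Fintype E] [DecidableEq E]

/-- Every edge has an end on the circuit C. -/
def Dominating (G : MGraph V E) (C : Finset E) : Prop :=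
  ∀ e, ∃ v ∈ G.ends e, dg G C v = 2

/-- Every vertex of the circuit C is a vertex of the circuit C'. -/
def VertexSubset (G : MGraph V E) (C C' : Finset E) : Prop :=
  ∀ v, dg G C v = 2 → dg G C' v = 2

/-- The circumference of G is at least (number of vertices) - 1. -/
def NearHamiltonian (G : MGraph V E) : Prop :=
  ∃ A : Finset E, IsCircuit G A ∧ Fintype.card V ≤ A.card + 1

theorem erase_filter_comm (G : MGraph V E) (e0 : E) (x : V) :
    (((univ : Finset E).erase e0).filter fun e => x ∈ G.ends e) =
      ((univ : Finset E).filter fun e => x ∈ G.ends e).erase e0 := by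
  ext e
  simp only [mem_filter, mem_erase, mem_univ, and_true, true_and]

theorem card_on (G : MGraph V E) (A : Finset E) (hA : IsCircuit G A) :
    (univ.filter fun v => dg G A v = 2).card = A.card := by
  have hsum : ∑ v, dg G A v = 2 * A.card := by
    unfold dg
    simp only [card_filter]
    rw [sum_comm]
    have : ∀ e ∈ A, ∑ v : V, (if v ∈ G.ends e then 1 else 0) = 2 := by
      intro e _
      rw [← card_filter, card_ends]
    rw [sum_congr rfl this, sum_const, smul_eq_mul, mul_comm]
  have h1 : ∑ v, dg G A v = ∑ v, (if dg G A v = 2 then 2 else 0) := by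
    refine sum_congr rfl fun v _ => ?_
    rcases hA.2.1 v with h | h <;> rw [h] <;> simp
  rw [h1, ← sum_filter, sum_const, smul_eq_mul] at hsum
  omega

theorem conn_on (G : MGraph V E) (A : Finset E) (hA : IsCircuit G A) (e0 : E) (p q : V)
    (hp : dg G A p = 2) (hq : dg G A q = 2) :
    Relation.ReflTransGen (fun x y => ∃ e ∈ (univ : Finset E).erase e0, G.ends e = s(x, y)) p q := by
  classical
  obtain ⟨b, hb⟩ : ∃ b : E → ZMod 2, b e0 = 0 ∧ ∀ x,
      ∑ e ∈ A, (if x ∈ G.ends e then b e else 0) =
        (if x = p then 1 else 0) + (if x = q then 1 else 0) := by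
    obtain ⟨b, hb⟩ := potential G A hA p q hp hq
    rcases z2_cases (b e0) with h | h
    · exact ⟨b, h, hb⟩
    · refine ⟨fun e => b e + 1, by show b e0 + 1 = 0; rw [h]; decide, fun x => ?_⟩
      rw [← hb x]
      have h1 : ∀ e, (if x ∈ G.ends e then b e + 1 else 0) =
          (if x ∈ G.ends e then b e else 0) + (if x ∈ G.ends e then (1 : ZMod 2) else 0) := by
        intro e
        by_cases h : x ∈ G.ends e <;> simp [h]
      simp only [h1]
      rw [sum_add_distrib, sum_boole]
      have h2 : ((A.filter fun e => x ∈ G.ends e).card : ZMod 2) = 0 := by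
        rcases hA.2.1 x with h3 | h3
        · unfold dg at h3; rw [h3]; rfl
        · unfold dg at h3; rw [h3]; rfl
      rw [h2, add_zero]
  obtain ⟨hb0, hb⟩ := hb
  obtain ⟨X, hX⟩ : ∃ X : Finset V, ∀ x, x ∈ X ↔ Relation.ReflTransGen
      (fun x y => ∃ e ∈ (univ : Finset E).erase e0, G.ends e = s(x, y)) p x :=
    ⟨univ.filter fun x => Relation.ReflTransGen
      (fun x y => ∃ e ∈ (univ : Finset E).erase e0, G.ends e = s(x, y)) p x, fun x => by simp⟩
  rw [← hX]
  by_contra hqX
  have hpX : p ∈ X := (hX p).2 Relation.ReflTransGen.refl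
  have h0 : ∑ x ∈ X, ∑ e ∈ A, (if x ∈ G.ends e then b e else 0) = 0 := by
    rw [sum_comm]
    refine sum_eq_zero fun e _ => ?_
    by_cases he : e = e0
    · subst he
      simp [hb0]
    · obtain ⟨x, y, hxy, hends⟩ := exists_ends G e
      have hadj : x ∈ X ↔ y ∈ X := by
        rw [hX, hX]
        constructor
        · intro h
          exact h.tail ⟨e, mem_erase.2 ⟨he, mem_univ _⟩, hends⟩
        · intro h
          exact h.tail ⟨e, mem_erase.2 ⟨he, mem_univ _⟩, by rw [hends, Sym2.eq_swap]⟩
      have hmem : ∀ z, z ∈ G.ends e ↔ z = x ∨ z = y := by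
        intro z; rw [hends, Sym2.mem_iff]
      simp only [hmem]
      by_cases hx : x ∈ X
      · have hy := hadj.1 hx
        have h1 : ∀ z, (if z = x ∨ z = y then b e else 0) =
            (if z = x then b e else 0) + (if z = y then b e else 0) := by
          intro z
          by_cases h2 : z = x
          · subst h2
            simp [hxy]
          · simp [h2]
        simp only [h1]
        rw [sum_add_distrib, sum_ite_eq', sum_ite_eq', if_pos hx, if_pos hy]
        exact CharTwo.add_self_eq_zero _
      · have hy : y ∉ X := fun h => hx (hadj.2 h)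
        refine sum_eq_zero fun z hz => ?_
        rw [if_neg]
        rintro (h | h)
        · exact hx (h ▸ hz)
        · exact hy (h ▸ hz)
  simp only [hb] at h0
  rw [sum_add_distrib, sum_ite_eq', sum_ite_eq', if_pos hpX, if_neg hqX, add_zero] at h0
  exact one_ne_zero h0

theorem two_edge_connected (G : MGraph V E) (hG : IsCubic G) (h : NearHamiltonian G) :
    MP_0c3aa4_co.ThroughDominating.TwoEdgeConnected G := by
  classical
  obtain ⟨A, hA, hlen⟩ := h
  have hc := card_on G A hA
  -- at most one vertex is off A
  have hone : ∀ x y, dg G A x = 0 → dg G A y = 0 → x = y := by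
    intro x y hx hy
    by_contra hne
    have h1 := card_filter_add_card_filter_not (s := (univ : Finset V)) (fun v => dg G A v = 2)
    rw [card_univ] at h1
    have h2 : ({x, y} : Finset V).card ≤ (univ.filter fun v => ¬ dg G A v = 2).card := by
      apply card_le_card
      intro w hw
      rw [mem_insert, mem_singleton] at hw
      rw [mem_filter]
      refine ⟨mem_univ _, ?_⟩
      rcases hw with rfl | rfl <;> omega
    rw [card_pair hne] at h2
    omega
  -- every vertex is joined to a vertex of A avoiding e0
  have hto : ∀ (e0 : E) (x : V), ∃ y, dg G A y = 2 ∧ Relation.ReflTransGen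
      (fun x y => ∃ e ∈ (univ : Finset E).erase e0, G.ends e = s(x, y)) x y ∧
      Relation.ReflTransGen
      (fun x y => ∃ e ∈ (univ : Finset E).erase e0, G.ends e = s(x, y)) y x := by
    intro e0 x
    rcases hA.2.1 x with hx | hx
    · obtain ⟨e, he, hxe⟩ : ∃ e ∈ (univ : Finset E).erase e0, x ∈ G.ends e := by
        apply exists_mem_of_dg_pos
        have h1 := hG x
        unfold dg at h1 ⊢
        have h2 : ((univ : Finset E).filter fun e => x ∈ G.ends e).card ≤
            (((univ : Finset E).erase e0).filter fun e => x ∈ G.ends e).card + 1 := by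
          rw [erase_filter_comm]
          have := pred_card_le_card_erase (s := (univ : Finset E).filter fun e => x ∈ G.ends e) (a := e0)
          omega
        omega
      obtain ⟨a, b, hab, hends⟩ := exists_ends G e
      obtain ⟨y, hy, hends'⟩ : ∃ y, y ≠ x ∧ G.ends e = s(x, y) := by
        rw [hends, Sym2.mem_iff] at hxe
        rcases hxe with h | h
        · exact ⟨b, by rw [h]; exact hab.symm, by rw [hends, h]⟩
        · exact ⟨a, by rw [h]; exact hab, by rw [hends, h, Sym2.eq_swap]⟩
      refine ⟨y, (hA.2.1 y).resolve_left fun h => hy (hone y x h hx), ?_, ?_⟩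
      · exact Relation.ReflTransGen.single ⟨e, he, hends'⟩
      · exact Relation.ReflTransGen.single ⟨e, he, by rw [hends', Sym2.eq_swap]⟩
    · exact ⟨x, hx, Relation.ReflTransGen.refl, Relation.ReflTransGen.refl⟩
  have hmain : ∀ e0, MP_0c3aa4_co.ThroughDominating.Connected G (univ.erase e0) := by
    intro e0 a b
    obtain ⟨a', ha', h1, _⟩ := hto e0 a
    obtain ⟨b', hb', _, h2⟩ := hto e0 b
    exact (h1.trans (conn_on G A hA e0 a' b' ha' hb')).trans h2
  refine ⟨?_, hmain⟩
  obtain ⟨e, _⟩ := hA.1
  intro a b
  have h3 := hmain e a b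
  induction h3 with
  | refl => exact Relation.ReflTransGen.refl
  | tail _ h5 ih =>
    obtain ⟨f, _, hf⟩ := h5
    exact ih.tail ⟨f, mem_univ _, hf⟩

/-- Let G be a cubic multigraph with circumference at least n - 1, and C a circuit of G whose
vertices lie on a circuit C' that is dominating or misses at most two vertices. Then G has a circuit
double cover containing C. -/
theorem result {V E : Type} [Fintype V] [DecidableEq V] [Fintype E] [DecidableEq E]
    (G : MGraph V E) (hG : IsCubic G) (hn : NearHamiltonian G)
    (C : Finset E) (hC : IsCircuit G C)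
    (h : ∃ C' : Finset E, IsCircuit G C' ∧ VertexSubset G C C' ∧
      (Dominating G C' ∨ Fintype.card V ≤ C'.card + 2)) :
    ∃ F : Multiset (Finset E), IsCDC G F ∧ C ∈ F := by
  classical
  obtain ⟨F, hF, hCF⟩ := MP_0c3aa4_co.ThroughDominating.result G hG (two_edge_connected G hG hn) C
    hC.2.1 h
  refine ⟨F.val, ⟨fun X hX => hF.1 X hX, fun e => ?_⟩, hCF C hC (Subset.refl _)⟩
  rw [Multiset.countP_eq_card_filter]
  exact hF.2 e

end Pool.Agent.Results.MP_ff63d6_co.InsideDominating
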